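import Pool.Agent.Helper21.CU.St

set_option autoImplicit false

namespace Pool.Agent.Helper69.CU

open Pool.Agent.Helper21.CU Finset

theorem ecM_pow (x : ℝ) (n : ℕ) : ec (x * n) = ec x ^ n := by
  unfold ec
  rw [← Complex.exp_nat_mul]
  congr 1
  push_cast
  ring

theorem ecM_int (m : ℤ) : ec (m : ℝ) = 1 := by
  unfold ec
  rw [Complex.exp_eq_one_iff]
  exact ⟨m, by push_cast; ring⟩

theorem ecM_add (x y : ℝ) : ec (x + y) = ec x * ec y := by
  unfold ec
  rw [← Complex.exp_add]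
  congr 1
  push_cast
  ring

theorem ecM_conj (x : ℝ) : (starRingEnd ℂ) (ec x) = ec (-x) := by
  unfold ec
  rw [← Complex.exp_conj]
  congr 1
  rw [map_mul, map_mul, map_mul, Complex.conj_I, Complex.conj_ofReal, Complex.conj_ofReal,
    Complex.conj_ofNat]
  push_cast
  ring

theorem ecM_geom (a : ℕ) (ha : 1 ≤ a) (m : ℤ) :
    ∑ t ∈ range a, ec ((m : ℝ) * t / a) = if (a : ℤ) ∣ m then (a : ℂ) else 0 := by
  have ha0 : (a : ℝ) ≠ 0 := by positivity
  have e : ∀ t ∈ range a, ec ((m : ℝ) * t / a) = ec ((m : ℝ) / a) ^ t := by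
    intro t _
    rw [← ecM_pow]
    congr 1
    ring
  rw [Finset.sum_congr rfl e]
  split_ifs with h
  · obtain ⟨n, rfl⟩ := h
    have : ec (((a * n : ℤ) : ℝ) / a) = 1 := by
      rw [show (((a * n : ℤ) : ℝ) / a) = (n : ℝ) by push_cast; field_simp]
      exact ecM_int n
    rw [this]
    simp
  · have hne : ec ((m : ℝ) / a) ≠ 1 := by
      intro h1
      apply h
      unfold ec at h1
      rw [Complex.exp_eq_one_iff] at h1
      obtain ⟨n, hn⟩ := h1
      have h2 : (2 * Real.pi * Complex.I : ℂ) ≠ 0 := Complex.two_pi_I_ne_zero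
      have h3 : (((m : ℝ) / a : ℝ) : ℂ) = n := by
        have : (2 * Real.pi * Complex.I : ℂ) * (((m : ℝ) / a : ℝ) : ℂ) = (2 * Real.pi * Complex.I : ℂ) * n := by
          rw [mul_comm (2 * Real.pi * Complex.I : ℂ) (n : ℂ), ← hn]
          ring
        exact mul_left_cancel₀ h2 this
      have h4 : (m : ℝ) / a = n := by exact_mod_cast h3
      refine ⟨n, ?_⟩
      have h5 : (m : ℝ) = a * n := by
        rw [div_eq_iff ha0] at h4
        rw [h4]; ring
      exact_mod_cast h5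
    have h1 : ec ((m : ℝ) / a) ^ a = 1 := by
      rw [← ecM_pow, div_mul_cancel₀ _ ha0]
      exact ecM_int m
    have h2 := geom_sum_mul (ec ((m : ℝ) / a)) a
    rw [h1, sub_self] at h2
    rcases mul_eq_zero.1 h2 with h3 | h3
    · exact h3
    · exact absurd (sub_eq_zero.1 h3) hne

theorem cntM (k : ℤ) (a h v : ℕ) (ha : 1 ≤ a) (hh : 1 ≤ h) :
    ((R k a).filter (fun v' : ℕ => (a : ℤ) ∣ (h : ℤ) * ((v : ℤ) - v'))).card ≤ h := by
  refine le_trans ?_ (Finset.card_range h).le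
  refine Finset.card_le_card_of_injOn (fun v' => h * v' / a) ?_ ?_
  · intro v' hv'
    have h1 : v' < a := by
      have := (Finset.mem_filter.1 hv').1
      unfold R at this
      exact Finset.mem_range.1 (Finset.mem_filter.1 this).1
    simp only [Finset.coe_range, Set.mem_Iio]
    rw [Nat.div_lt_iff_lt_mul (by omega)]
    exact Nat.mul_lt_mul_of_pos_left h1 (by omega)
  · intro v1 hv1 v2 hv2 h12
    simp only at h12
    have hd1 := (Finset.mem_filter.1 hv1).2
    have hd2 := (Finset.mem_filter.1 hv2).2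
    have h3 : (a : ℤ) ∣ (h : ℤ) * v1 - (h : ℤ) * v2 := by
      have := dvd_sub hd2 hd1
      have e : (h : ℤ) * ((v : ℤ) - v2) - (h : ℤ) * ((v : ℤ) - v1) = (h : ℤ) * v1 - (h : ℤ) * v2 := by ring
      rwa [e] at this
    have h4 : (h * v1) % a = (h * v2) % a := by
      have : (h * v2) ≡ (h * v1) [MOD a] := by
        rw [Nat.modEq_iff_dvd]
        push_cast
        exact h3
      exact this.symm
    have h5 : h * v1 = h * v2 := by
      rw [← Nat.div_add_mod (h * v1) a, ← Nat.div_add_mod (h * v2) a, h4, h12]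
    exact Nat.eq_of_mul_eq_mul_left (by omega) h5

theorem hMOM : StMOM := by
  classical
  intro k a h ha hh
  have ha0 : (a : ℝ) ≠ 0 := by positivity
  have e1 : ((∑ t ∈ range a, ‖W k a (h * t)‖ ^ 2 : ℝ) : ℂ) =
      ∑ v ∈ R k a, ∑ v' ∈ R k a, if (a : ℤ) ∣ (h : ℤ) * ((v : ℤ) - v') then (a : ℂ) else 0 := by
    push_cast
    have e2 : ∀ t ∈ range a, ((‖W k a (h * t)‖ : ℂ)) ^ 2 =
        ∑ v ∈ R k a, ∑ v' ∈ R k a, ec ((((h : ℤ) * ((v : ℤ) - v') : ℤ) : ℝ) * t / a) := by
      intro t _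
      rw [← Complex.mul_conj']
      unfold W
      rw [map_sum, Finset.sum_mul_sum]
      refine Finset.sum_congr rfl fun v _ => Finset.sum_congr rfl fun v' _ => ?_
      rw [ecM_conj, ← ecM_add]
      congr 1
      push_cast
      ring
    rw [Finset.sum_congr rfl e2, Finset.sum_comm]
    refine Finset.sum_congr rfl fun v _ => ?_
    rw [Finset.sum_comm]
    refine Finset.sum_congr rfl fun v' _ => ?_
    exact ecM_geom a ha _
  have e3 : (∑ v ∈ R k a, ∑ v' ∈ R k a, if (a : ℤ) ∣ (h : ℤ) * ((v : ℤ) - v') then (a : ℂ) else 0) =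
      ((∑ v ∈ R k a, (a : ℝ) * ((R k a).filter (fun v' : ℕ => (a : ℤ) ∣ (h : ℤ) * ((v : ℤ) - v'))).card : ℝ) : ℂ) := by
    push_cast
    refine Finset.sum_congr rfl fun v _ => ?_
    rw [← Finset.sum_filter]
    rw [Finset.sum_const, nsmul_eq_mul]
    ring
  rw [e3] at e1
  have e4 : ∑ t ∈ range a, ‖W k a (h * t)‖ ^ 2 =
      ∑ v ∈ R k a, (a : ℝ) * ((R k a).filter (fun v' : ℕ => (a : ℤ) ∣ (h : ℤ) * ((v : ℤ) - v'))).card := by
    exact_mod_cast e1
  rw [e4]
  calc ∑ v ∈ R k a, (a : ℝ) * ((R k a).filter (fun v' : ℕ => (a : ℤ) ∣ (h : ℤ) * ((v : ℤ) - v'))).card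
      ≤ ∑ v ∈ R k a, (a : ℝ) * h := by
        refine Finset.sum_le_sum fun v _ => ?_
        refine mul_le_mul_of_nonneg_left ?_ (by positivity)
        exact_mod_cast cntM k a h v ha hh
    _ = (a : ℝ) * (R k a).card * h := by
        rw [Finset.sum_const, nsmul_eq_mul]
        ring

end Pool.Agent.Helper69.CU
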