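import Pool.Agent.Helper21.CU.St

set_option autoImplicit false

namespace Pool.Agent.Helper69.CU

open Pool.Agent.Helper21.CU Finset

theorem hASQ : StASQ := by
  classical
  intro A T f bad hT
  have hN : 0 < (T.card : ℝ) := by exact_mod_cast hT.card_pos
  set Z : ℤ × ℤ → ℝ := fun i => ∑ p ∈ T, if ¬ bad p i then g p (f i) else 0 with hZ
  set Bc : ℤ × ℤ → ℝ := fun i => ∑ p ∈ T, if bad p i then (1 : ℝ) else 0 with hB
  have hB0 : ∀ i, 0 ≤ Bc i := fun i => Finset.sum_nonneg fun p _ => by split_ifs <;> norm_num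
  have h1 : ∀ i ∈ A.filter (fun i => IsSquare (f i)),
      (1 : ℝ) ≤ 2 / T.card * Bc i + 4 / (T.card : ℝ) ^ 2 * Z i ^ 2 := by
    intro i hi
    have hsq : IsSquare (f i) := (Finset.mem_filter.1 hi).2
    have hg : ∀ p : ℕ, g p (f i) = 1 := by
      intro p
      unfold g
      rw [if_pos]
      obtain ⟨r, hr⟩ := hsq
      exact ⟨(r : ZMod p), by rw [hr]; push_cast; ring⟩
    have hsum : Bc i + Z i = T.card := by
      rw [hB, hZ]
      simp only
      rw [← Finset.sum_add_distrib]
      have : ∀ p ∈ T, ((if bad p i then (1 : ℝ) else 0) + (if ¬ bad p i then g p (f i) else 0)) = 1 := by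
        intro p _
        rw [hg]
        by_cases h : bad p i
        · rw [if_pos h, if_neg (not_not.2 h)]; norm_num
        · rw [if_neg h, if_pos h]; norm_num
      rw [Finset.sum_congr rfl this]
      simp
    have hb := hB0 i
    by_cases hh : (T.card : ℝ) / 2 ≤ Bc i
    · have : (1 : ℝ) ≤ 2 / T.card * Bc i := by
        rw [div_mul_eq_mul_div, le_div_iff₀ hN]
        linarith
      have h2 : (0 : ℝ) ≤ 4 / (T.card : ℝ) ^ 2 * Z i ^ 2 := by positivity
      linarith
    · push Not at hh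
      have hz : (T.card : ℝ) / 2 ≤ Z i := by linarith
      have h3 : (1 : ℝ) ≤ 4 / (T.card : ℝ) ^ 2 * Z i ^ 2 := by
        rw [div_mul_eq_mul_div, le_div_iff₀ (by positivity)]
        nlinarith
      have h2 : (0 : ℝ) ≤ 2 / T.card * Bc i := by positivity
      linarith
  have h2 : ((A.filter (fun i => IsSquare (f i))).card : ℝ) ≤
      ∑ i ∈ A, (2 / T.card * Bc i + 4 / (T.card : ℝ) ^ 2 * Z i ^ 2) := by
    calc ((A.filter (fun i => IsSquare (f i))).card : ℝ)
        = ∑ i ∈ A.filter (fun i => IsSquare (f i)), (1 : ℝ) := by simp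
      _ ≤ ∑ i ∈ A.filter (fun i => IsSquare (f i)), (2 / T.card * Bc i + 4 / (T.card : ℝ) ^ 2 * Z i ^ 2) :=
          Finset.sum_le_sum h1
      _ ≤ _ := by
          refine Finset.sum_le_sum_of_subset_of_nonneg (Finset.filter_subset _ _) fun i _ _ => ?_
          have := hB0 i
          positivity
  have h3 : ∑ i ∈ A, Bc i = ∑ p ∈ T, ((A.filter (fun i => bad p i)).card : ℝ) := by
    rw [hB]
    simp only
    rw [Finset.sum_comm]
    refine Finset.sum_congr rfl fun p _ => ?_
    rw [← Finset.sum_filter]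
    simp
  have h4 : ∑ i ∈ A, Z i ^ 2 = ∑ p ∈ T, ∑ q ∈ T,
      ∑ i ∈ A.filter (fun i => ¬ bad p i ∧ ¬ bad q i), g p (f i) * g q (f i) := by
    have e1 : ∀ i ∈ A, Z i ^ 2 = ∑ p ∈ T, ∑ q ∈ T,
        if (¬ bad p i ∧ ¬ bad q i) then g p (f i) * g q (f i) else 0 := by
      intro i _
      rw [hZ]
      simp only
      rw [sq, Finset.sum_mul_sum]
      refine Finset.sum_congr rfl fun p _ => Finset.sum_congr rfl fun q _ => ?_
      by_cases hp : bad p i
      · simp [hp]
      · by_cases hq : bad q i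
        · simp [hq]
        · simp [hp, hq]
    rw [Finset.sum_congr rfl e1, Finset.sum_comm]
    refine Finset.sum_congr rfl fun p _ => ?_
    rw [Finset.sum_comm]
    refine Finset.sum_congr rfl fun q _ => ?_
    rw [← Finset.sum_filter]
  refine h2.trans (le_of_eq ?_)
  rw [Finset.sum_add_distrib, ← Finset.mul_sum, ← Finset.mul_sum, h3, h4]

end Pool.Agent.Helper69.CU
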