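import Pool.Agent.Helper21.CU.St2

set_option autoImplicit false

open Finset

namespace Pool.Agent.Helper69.CU

open Pool.Agent.Helper21.CU

open scoped Classical in
/-- The pairs. -/
noncomputable def PP2 (k : ℤ) (Z S : ℕ) : Finset (ℤ × ℤ) :=
  ((Icc (1 : ℤ) S) ×ˢ (Icc (-(Z : ℤ)) Z)).filter
    (fun i : ℤ × ℤ => i.1 ∣ i.2 ^ 3 - k ∧ IsSquare (D k i.1 i.2))

theorem mem_PP2 {k x y z : ℤ} {Z M kN : ℕ} (hkN : |k| + 1 = kN) (hZ : 2 ≤ Z) (hM : 0 < M)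
    (h : x ^ 3 + y ^ 3 + z ^ 3 = k) (hz : |z| ≤ Z) (hm : (M : ℤ) ≤ max |x| |y|)
    (hs : 0 < x + y) : (x + y, z) ∈ PP2 k Z (4 * kN * Z ^ 3 / (3 * M ^ 2)) := by
  unfold PP2
  have hz1 := abs_le.1 hz
  have hf : k - z ^ 3 = (x + y) * (x ^ 2 - x * y + y ^ 2) := by rw [← h]; ring
  simp only [Finset.mem_filter, Finset.mem_product, Finset.mem_Icc]
  refine ⟨⟨⟨by omega, ?_⟩, hz1⟩, ?_, ?_⟩
  · -- the size of the sum
    have hk0 : 0 ≤ |k| := abs_nonneg k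
    have hZ0 : (2 : ℤ) ≤ Z := by exact_mod_cast hZ
    have h3 : k - z ^ 3 ≤ |k| + (Z : ℤ) ^ 3 := by
      have h4 : k ≤ |k| := le_abs_self k
      have h5 : (-z) ^ 3 ≤ (Z : ℤ) ^ 3 := by
        rw [Odd.pow_le_pow (by decide : Odd 3)]
        linarith [hz1.1]
      have h6 : (-z) ^ 3 = -z ^ 3 := by ring
      linarith
    have h4 : k - z ^ 3 ≤ kN * (Z : ℤ) ^ 3 := by
      have h5 : (1 : ℤ) ≤ (Z : ℤ) ^ 3 := by
        have : (1 : ℤ) ≤ Z := by linarith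
        exact one_le_pow₀ this
      rw [← hkN]
      nlinarith
    have h5 : 3 * (M : ℤ) ^ 2 ≤ 4 * (x ^ 2 - x * y + y ^ 2) := by
      have hM0 : (0 : ℤ) ≤ M := Int.natCast_nonneg M
      rcases le_max_iff.1 hm with h6 | h6
      · have h7 : (M : ℤ) ^ 2 ≤ x ^ 2 := by
          rw [← sq_abs x]
          exact pow_le_pow_left₀ hM0 h6 2
        nlinarith [sq_nonneg (x - 2 * y)]
      · have h7 : (M : ℤ) ^ 2 ≤ y ^ 2 := by
          rw [← sq_abs y]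
          exact pow_le_pow_left₀ hM0 h6 2
        nlinarith [sq_nonneg (y - 2 * x)]
    have h6 : (x + y) * (3 * (M : ℤ) ^ 2) ≤ 4 * kN * (Z : ℤ) ^ 3 := by
      have h7 : (x + y) * (3 * (M : ℤ) ^ 2) ≤ (x + y) * (4 * (x ^ 2 - x * y + y ^ 2)) :=
        mul_le_mul_of_nonneg_left h5 hs.le
      have h8 : (x + y) * (4 * (x ^ 2 - x * y + y ^ 2)) = 4 * (k - z ^ 3) := by rw [hf]; ring
      linarith
    obtain ⟨n, hn⟩ := Int.eq_ofNat_of_zero_le hs.le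
    rw [hn] at h6 ⊢
    have h7 : n * (3 * M ^ 2) ≤ 4 * kN * Z ^ 3 := by exact_mod_cast h6
    have h8 : n ≤ 4 * kN * Z ^ 3 / (3 * M ^ 2) := by
      rw [Nat.le_div_iff_mul_le (by positivity)]
      exact h7
    exact_mod_cast h8
  · refine ⟨-(x ^ 2 - x * y + y ^ 2), ?_⟩
    linear_combination -hf
  · refine ⟨3 * (x + y) * (x - y), ?_⟩
    have : 4 * k - 4 * z ^ 3 = 4 * ((x + y) * (x ^ 2 - x * y + y ^ 2)) := by rw [← hf]; ring
    unfold D
    rw [this]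
    ring

theorem card_le2 (k : ℤ) (Z M kN : ℕ) (T : Finset (ℤ × ℤ × ℤ)) (hkN : |k| + 1 = kN) (hZ : 2 ≤ Z)
    (hM : 0 < M)
    (hT : ∀ t ∈ T, t.1 ^ 3 + t.2.1 ^ 3 + t.2.2 ^ 3 = k ∧ |t.2.2| ≤ Z ∧ (M : ℤ) ≤ max |t.1| |t.2.1|)
    (hs : ∀ t ∈ T, 0 < t.1 + t.2.1) :
    T.card ≤ 2 * (PP2 k Z (4 * kN * Z ^ 3 / (3 * M ^ 2))).card := by
  classical
  have h1 : ((PP2 k Z (4 * kN * Z ^ 3 / (3 * M ^ 2))) ×ˢ (Finset.univ : Finset Bool)).card =
      2 * (PP2 k Z (4 * kN * Z ^ 3 / (3 * M ^ 2))).card := by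
    rw [Finset.card_product, Finset.card_univ, Fintype.card_bool, mul_comm]
  rw [← h1]
  apply Finset.card_le_card_of_injOn
    (fun t : ℤ × ℤ × ℤ => ((t.1 + t.2.1, t.2.2), decide (t.2.1 ≤ t.1)))
  · rintro ⟨x, y, z⟩ ht
    have h2 := hT _ (Finset.mem_coe.1 ht)
    have h3 := hs _ (Finset.mem_coe.1 ht)
    rw [Finset.mem_coe, Finset.mem_product]
    exact ⟨mem_PP2 hkN hZ hM h2.1 h2.2.1 h2.2.2 h3, Finset.mem_univ _⟩
  · rintro ⟨x, y, z⟩ ht ⟨x', y', z'⟩ ht' heq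
    have h2 := (hT _ (Finset.mem_coe.1 ht)).1
    have h2' := (hT _ (Finset.mem_coe.1 ht')).1
    have h3 := hs _ (Finset.mem_coe.1 ht)
    simp only [Prod.mk.injEq] at heq h2 h2' h3
    obtain ⟨⟨h4, h5⟩, h6⟩ := heq
    subst h5
    -- the squares of the differences agree
    have h7 : (x + y) * (x - y) ^ 2 = (x + y) * (x' - y') ^ 2 := by
      have e1 : (x + y) ^ 3 + 3 * ((x + y) * (x - y) ^ 2) = 4 * (x ^ 3 + y ^ 3) := by ring
      have e2 : (x' + y') ^ 3 + 3 * ((x' + y') * (x' - y') ^ 2) = 4 * (x' ^ 3 + y' ^ 3) := by ring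
      have e3 : x ^ 3 + y ^ 3 = x' ^ 3 + y' ^ 3 := by linarith
      rw [← h4] at e2
      linarith
    have h8 : (x - y) ^ 2 = (x' - y') ^ 2 := mul_left_cancel₀ h3.ne' h7
    have h9 : x - y = x' - y' := by
      rcases sq_eq_sq_iff_eq_or_eq_neg.1 h8 with h | h
      · exact h
      · by_cases hc : y ≤ x
        · have hc' : y' ≤ x' := by
            rw [decide_eq_true hc] at h6
            exact of_decide_eq_true h6.symm
          omega
        · have hc' : ¬ y' ≤ x' := by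
            rw [decide_eq_false hc] at h6
            exact of_decide_eq_false h6.symm
          omega
    have h10 : x = x' := by omega
    have h11 : y = y' := by omega
    rw [h10, h11]

theorem hFI2 (hPS2 : StPS2) : StFI2 := by
  classical
  intro k hk
  have hk' : NonCube (-k) := by
    intro m hm
    apply hk (-m)
    have : (-m) ^ 3 = -(m ^ 3) := by ring
    rw [this, hm, neg_neg]
  obtain ⟨kN, hkN⟩ := Int.eq_ofNat_of_zero_le (by positivity : 0 ≤ |k| + 1)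
  have hkN' : |(-k)| + 1 = kN := by rw [abs_neg]; exact hkN
  have hkN1 : 1 ≤ kN := by
    have : (0 : ℤ) ≤ |k| := abs_nonneg k
    omega
  obtain ⟨C₁, hC₁, h₁⟩ := hPS2 k (2 * kN) hk
  obtain ⟨C₂, hC₂, h₂⟩ := hPS2 (-k) (2 * kN) hk'
  have hkNr : (1 : ℝ) ≤ kN := by exact_mod_cast hkN1
  refine ⟨(2 * C₁ + 2 * C₂) * (2 * kN), by positivity, fun Z M T hZ hZM hT => ?_⟩
  have hM : 0 < M := by omega
  have hZr : (2 : ℝ) ≤ Z := by exact_mod_cast hZ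
  have hMr : (0 : ℝ) < M := by exact_mod_cast hM
  have hZMr : (Z : ℝ) ≤ M := by exact_mod_cast hZM
  set S : ℕ := 4 * kN * Z ^ 3 / (3 * M ^ 2) with hSdef
  have hSr : (S : ℝ) ≤ 4 * kN * Z ^ 3 / (3 * M ^ 2) := by
    have := @Nat.cast_div_le ℝ _ _ _ (4 * kN * Z ^ 3) (3 * M ^ 2)
    push_cast at this
    exact this
  have hSA : S ≤ 2 * kN * Z := by
    rw [hSdef]
    apply Nat.div_le_of_le_mul
    have h1 : Z ^ 2 ≤ M ^ 2 := Nat.pow_le_pow_left hZM 2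
    calc 4 * kN * Z ^ 3 = 4 * kN * Z * Z ^ 2 := by ring
      _ ≤ 4 * kN * Z * M ^ 2 := Nat.mul_le_mul_left _ h1
      _ ≤ 6 * kN * Z * M ^ 2 := by gcongr; norm_num
      _ = 3 * M ^ 2 * (2 * kN * Z) := by ring
  -- the bound by pairs
  have h1 := card_le2 k Z M kN (T.filter fun t => 0 < t.1 + t.2.1) hkN hZ hM
    (fun t ht => hT t (Finset.mem_filter.1 ht).1) (fun t ht => (Finset.mem_filter.1 ht).2)
  let ν : ℤ × ℤ × ℤ → ℤ × ℤ × ℤ := fun t => (-t.1, -t.2.1, -t.2.2)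
  have hν : Function.Injective ν := by
    rintro ⟨x, y, z⟩ ⟨x', y', z'⟩ h
    simp only [ν, Prod.mk.injEq, neg_inj] at h
    rw [h.1, h.2.1, h.2.2]
  have h2 := card_le2 (-k) Z M kN ((T.filter fun t => ¬ 0 < t.1 + t.2.1).image ν) hkN' hZ hM
    (by
      intro t ht
      obtain ⟨⟨x, y, z⟩, hu, rfl⟩ := Finset.mem_image.1 ht
      have h3 := hT _ (Finset.mem_filter.1 hu).1
      simp only [ν, abs_neg] at h3 ⊢
      refine ⟨?_, h3.2⟩
      rw [← h3.1]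
      ring)
    (by
      intro t ht
      obtain ⟨⟨x, y, z⟩, hu, rfl⟩ := Finset.mem_image.1 ht
      have h3 := (hT _ (Finset.mem_filter.1 hu).1).1
      have h4 := (Finset.mem_filter.1 hu).2
      simp only [ν] at h3 h4 ⊢
      have h5 : x + y ≠ 0 := by
        intro h0
        apply hk z
        have : y = -x := by omega
        rw [← h3, this]
        ring
      omega)
  rw [Finset.card_image_of_injective _ hν] at h2
  rw [← hSdef] at h1 h2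
  have h3 := Finset.card_filter_add_card_filter_not (s := T) (fun t => 0 < t.1 + t.2.1)
  have h4 : (T.card : ℝ) ≤ 2 * ((PP2 k Z S).card : ℝ) + 2 * ((PP2 (-k) Z S).card : ℝ) := by
    have : T.card ≤ 2 * (PP2 k Z S).card + 2 * (PP2 (-k) Z S).card := by omega
    exact_mod_cast this
  have h5 : ((PP2 k Z S).card : ℝ) ≤ C₁ * √((S : ℝ) * Z) * Real.log Z := h₁ Z S hZ hSA
  have h6 : ((PP2 (-k) Z S).card : ℝ) ≤ C₂ * √((S : ℝ) * Z) * Real.log Z := h₂ Z S hZ hSA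
  have hlog : 0 ≤ Real.log Z := Real.log_nonneg (by linarith)
  have h7 : √((S : ℝ) * Z) ≤ 2 * kN * (Z ^ 2 / M) := by
    apply Real.sqrt_le_iff.2
    refine ⟨by positivity, ?_⟩
    calc (S : ℝ) * Z ≤ 4 * kN * Z ^ 3 / (3 * M ^ 2) * Z :=
          mul_le_mul_of_nonneg_right hSr (by linarith)
      _ = (4 / 3 * kN) * ((Z : ℝ) ^ 2 / M) ^ 2 := by field_simp
      _ ≤ (4 * (kN * kN)) * ((Z : ℝ) ^ 2 / M) ^ 2 :=
          mul_le_mul_of_nonneg_right (by nlinarith) (by positivity)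
      _ = (2 * kN * ((Z : ℝ) ^ 2 / M)) ^ 2 := by ring
  have h8 : √((S : ℝ) * Z) * Real.log Z ≤ 2 * kN * (Z ^ 2 / M) * Real.log Z := by gcongr
  calc (T.card : ℝ) ≤ 2 * (C₁ * √((S : ℝ) * Z) * Real.log Z) +
        2 * (C₂ * √((S : ℝ) * Z) * Real.log Z) := by linarith
    _ = (2 * C₁ + 2 * C₂) * (√((S : ℝ) * Z) * Real.log Z) := by ring
    _ ≤ (2 * C₁ + 2 * C₂) * (2 * kN * (Z ^ 2 / M) * Real.log Z) := by gcongr
    _ = (2 * C₁ + 2 * C₂) * (2 * kN) * (Z : ℝ) ^ 2 / M * Real.log Z := by ring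

end Pool.Agent.Helper69.CU
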